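import Pool.Agent.Lib.MP_1a3fd7_lc.Main2

/-!
The minimum weight of an outerplane Laman graph on a set of integer points, no three on a line, is
NP-hard to compute, even up to an additive error below one half.
-/

set_option autoImplicit false

namespace Pool.Agent.Results.MP_1a3fd7_lc.NPHard

open Pool.Agent.Lib.MP_1a3fd7_lc

theorem result : ∀ L ∈ N68a2faeb.NP, ∃ f : List Bool → List Pt × ℕ, N68a2faeb.IsPolyTime f ∧ ∀ x,
    (∀ p ∈ (f x).1, ∀ q ∈ (f x).1, ∀ r ∈ (f x).1, p ≠ q → p ≠ r → q ≠ r →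
      ¬ Collinear ℝ {toR p, toR q, toR r}) ∧
    (L x = true → ∃ E, OuterLaman (f x).1.toFinset E ∧ weight E ≤ (f x).2) ∧
    (L x = false → ∀ E, OuterLaman (f x).1.toFinset E → (f x).2 + 1 ≤ weight E) :=
  fun _ hL => np_gap hL

end Pool.Agent.Results.MP_1a3fd7_lc.NPHard
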